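import Mathlib

/-! XR2 (MP_5df5df_gt), step (E), part 1: moments which are known on an open cone. -/

set_option autoImplicit false

open MeasureTheory

namespace Pool.H55.XRT

/-- The `n`-th moment of a uniform distribution on `[-r, r]` with mass `M` and second moment
`V = M r ^ 2 / 3`. -/
noncomputable def UM (M : ℝ) (n : ℕ) (V : ℝ) : ℝ :=
  if Even n then M / (n + 1) * (3 * V / M) ^ (n / 2) else 0

theorem UM_homog (M : ℝ) (n : ℕ) (V l : ℝ) : UM M n (l ^ 2 * V) = l ^ n * UM M n V := by
  unfold UM
  split_ifs with h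
  · obtain ⟨j, hj⟩ := h
    subst hj
    have h2 : (j + j) / 2 = j := by omega
    rw [h2]
    have h3 : 3 * (l ^ 2 * V) / M = l ^ 2 * (3 * V / M) := by ring
    rw [h3, mul_pow, ← pow_mul]
    have h4 : 2 * j = j + j := by ring
    rw [h4]
    ring
  · simp

/-- Moments of linear forms known on an open cone are known everywhere. -/
theorem moments_ext {α : Type} [MeasurableSpace α] (μ : Measure α) (x h : α → ℝ) (M s1 s2 : ℝ)
    (hs : s1 < s2)
    (hint : ∀ (i j : ℕ), Integrable (fun a => x a ^ i * h a ^ j) μ)
    (hU : ∀ s ∈ Set.Ioo s1 s2, ∀ n : ℕ,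
      ∫ a, (h a - s * x a) ^ n ∂μ = UM M n (∫ a, (h a - s * x a) ^ 2 ∂μ)) :
    ∀ (p q : ℝ) (n : ℕ), ∫ a, (p * x a + q * h a) ^ n ∂μ =
      UM M n (∫ a, (p * x a + q * h a) ^ 2 ∂μ) := by
  intro p q n
  set t : ℝ := (s1 + s2) / 2 with ht
  -- integrability of products of powers of linear forms
  have hlin : ∀ (a b c d : ℝ) (i j : ℕ),
      Integrable (fun w => (a * x w + b * h w) ^ i * (c * x w + d * h w) ^ j) μ := by
    intro a b c d i j
    have e1 : (fun w => (a * x w + b * h w) ^ i * (c * x w + d * h w) ^ j) =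
        fun w => ∑ k ∈ Finset.range (i + 1), ∑ l ∈ Finset.range (j + 1),
          (a ^ k * b ^ (i - k) * (i.choose k) * (c ^ l * d ^ (j - l) * (j.choose l))) *
            (x w ^ (k + l) * h w ^ ((i - k) + (j - l))) := by
      funext w
      rw [add_pow, add_pow, Finset.sum_mul_sum]
      refine Finset.sum_congr rfl fun k _ => Finset.sum_congr rfl fun l _ => ?_
      rw [mul_pow, mul_pow, mul_pow, mul_pow, pow_add, pow_add]
      ring
    rw [e1]
    refine integrable_finsetSum _ fun k _ => integrable_finsetSum _ fun l _ => ?_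
    exact (hint _ _).const_mul _
  -- the polynomial in z
  let P : ℕ → Polynomial ℝ := fun m => ∑ i ∈ Finset.range (m + 1),
    Polynomial.C ((∫ a, ((-t) * x a + 1 * h a) ^ i * (p * x a + q * h a) ^ (m - i) ∂μ) *
      (m.choose i)) * Polynomial.X ^ i
  have hP : ∀ (m : ℕ) (z : ℝ), Polynomial.eval z (P m) =
      ∫ a, (z * ((-t) * x a + 1 * h a) + (p * x a + q * h a)) ^ m ∂μ := by
    intro m z
    have e1 : (fun a => (z * ((-t) * x a + 1 * h a) + (p * x a + q * h a)) ^ m) =
        fun a => ∑ i ∈ Finset.range (m + 1), (z ^ i * (m.choose i)) *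
          (((-t) * x a + 1 * h a) ^ i * (p * x a + q * h a) ^ (m - i)) := by
      funext a
      rw [add_pow]
      refine Finset.sum_congr rfl fun i _ => ?_
      rw [mul_pow]
      ring
    rw [e1, integral_finsetSum _ fun i _ => (hlin _ _ _ _ _ _).const_mul _]
    simp only [P, Polynomial.eval_finsetSum, Polynomial.eval_mul, Polynomial.eval_C,
      Polynomial.eval_pow, Polynomial.eval_X]
    refine Finset.sum_congr rfl fun i _ => ?_
    rw [integral_const_mul]
    ring
  have hd : 0 < (s2 - s1) / 2 := by linarith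
  have hlarge : ∀ z : ℝ, |q| + |p + q * t| / ((s2 - s1) / 2) < z → ∀ m : ℕ,
      Polynomial.eval z (P m) = UM M m (Polynomial.eval z (P 2)) := by
    intro z hz m
    have h1 : 0 ≤ |p + q * t| / ((s2 - s1) / 2) := by positivity
    have h2 : -|q| ≤ q := neg_abs_le q
    have hqz : 0 < q + z := by linarith
    have hqz2 : |p + q * t| / ((s2 - s1) / 2) < q + z := by linarith
    have h3 : |p + q * t| < (q + z) * ((s2 - s1) / 2) := by
      rw [div_lt_iff₀ hd] at hqz2
      exact hqz2
    set s : ℝ := (z * t - p) / (q + z) with hsdef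
    have h4 : s - t = -(p + q * t) / (q + z) := by
      rw [hsdef]
      field_simp
      ring
    have h5 : |s - t| < (s2 - s1) / 2 := by
      rw [h4, abs_div, abs_neg, abs_of_pos hqz, div_lt_iff₀ hqz]
      linarith
    have hsmem : s ∈ Set.Ioo s1 s2 := by
      rw [abs_lt] at h5
      constructor
      · have := h5.1
        rw [ht] at this
        linarith
      · have := h5.2
        rw [ht] at this
        linarith
    have h6 : ∀ a, z * ((-t) * x a + 1 * h a) + (p * x a + q * h a) =
        (q + z) * (h a - s * x a) := by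
      intro a
      have : (q + z) * s = z * t - p := by
        rw [hsdef]
        field_simp
      calc z * ((-t) * x a + 1 * h a) + (p * x a + q * h a)
          = (q + z) * h a - (z * t - p) * x a := by ring
        _ = (q + z) * h a - ((q + z) * s) * x a := by rw [this]
        _ = (q + z) * (h a - s * x a) := by ring
    have h7 : ∀ k : ℕ, Polynomial.eval z (P k) =
        (q + z) ^ k * ∫ a, (h a - s * x a) ^ k ∂μ := by
      intro k
      rw [hP]
      simp only [h6, mul_pow]
      rw [integral_const_mul]
    rw [h7 m, h7 2, UM_homog, hU s hsmem m]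
  -- now the identity as polynomials
  have hinf : (Set.Ioi (|q| + |p + q * t| / ((s2 - s1) / 2))).Infinite := Set.Ioi_infinite _
  have h0 : Polynomial.eval 0 (P n) = UM M n (Polynomial.eval 0 (P 2)) := by
    unfold UM
    split_ifs with hn
    · have : P n = Polynomial.C (M / (n + 1)) *
          (Polynomial.C (3 / M) * P 2) ^ (n / 2) := by
        apply Polynomial.eq_of_infinite_eval_eq
        refine hinf.mono fun z hz => ?_
        have := hlarge z hz n
        unfold UM at this
        rw [if_pos hn] at this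
        simp only [Set.mem_ofPred_eq]
        rw [this]
        simp only [Polynomial.eval_mul, Polynomial.eval_C, Polynomial.eval_pow]
        ring
      rw [this]
      simp only [Polynomial.eval_mul, Polynomial.eval_C, Polynomial.eval_pow]
      ring
    · have : P n = 0 := by
        apply Polynomial.eq_of_infinite_eval_eq
        refine hinf.mono fun z hz => ?_
        have := hlarge z hz n
        unfold UM at this
        rw [if_neg hn] at this
        simp only [Set.mem_ofPred_eq]
        rw [this]
        simp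
      rw [this]
      simp
  rw [hP, hP] at h0
  simpa using h0

/-- Same moments, same characteristic function. -/
theorem exp_of_moments {α : Type} [MeasurableSpace α] (μ : Measure α) [IsFiniteMeasure μ]
    (f g : α → ℝ) (R : ℝ) (hf : AEStronglyMeasurable f μ) (hg : AEStronglyMeasurable g μ)
    (hfR : ∀ᵐ a ∂μ, |f a| ≤ R) (hgR : ∀ᵐ a ∂μ, |g a| ≤ R)
    (hm : ∀ n : ℕ, ∫ a, f a ^ n ∂μ = ∫ a, g a ^ n ∂μ) :
    ∫ a, Complex.exp ((f a : ℂ) * Complex.I) ∂μ =
      ∫ a, Complex.exp ((g a : ℂ) * Complex.I) ∂μ := by
  have key : ∀ u : α → ℝ, AEStronglyMeasurable u μ → (∀ᵐ a ∂μ, |u a| ≤ R) →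
      HasSum (fun n : ℕ => ((∫ a, u a ^ n ∂μ : ℝ) : ℂ) * (Complex.I ^ n / (n.factorial : ℂ)))
        (∫ a, Complex.exp ((u a : ℂ) * Complex.I) ∂μ) := by
    intro u hu huR
    have hterm : ∀ (n : ℕ), (fun a => ((u a : ℂ) * Complex.I) ^ n / (n.factorial : ℂ)) =
        fun a => ((u a ^ n : ℝ) : ℂ) * (Complex.I ^ n / (n.factorial : ℂ)) := by
      intro n
      funext a
      rw [mul_pow]
      push_cast
      ring
    have hae : ∀ n : ℕ, ∀ᵐ a ∂μ, ‖((u a : ℂ) * Complex.I) ^ n / (n.factorial : ℂ)‖ ≤
        R ^ n / (n.factorial : ℝ) := by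
      intro n
      filter_upwards [huR] with a ha
      rw [norm_div, norm_pow, norm_mul, Complex.norm_I, mul_one, Complex.norm_real,
        Real.norm_eq_abs, Complex.norm_natCast]
      gcongr
    have hmeas : ∀ n : ℕ, AEStronglyMeasurable
        (fun a => ((u a : ℂ) * Complex.I) ^ n / (n.factorial : ℂ)) μ := by
      intro n
      have h1 : AEStronglyMeasurable (fun a => (u a : ℂ)) μ :=
        Complex.continuous_ofReal.comp_aestronglyMeasurable hu
      simp only [div_eq_mul_inv]
      exact ((h1.mul_const _).pow n).mul_const _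
    have hint : ∀ n : ℕ, Integrable
        (fun a => ((u a : ℂ) * Complex.I) ^ n / (n.factorial : ℂ)) μ := fun n =>
      Integrable.of_bound (hmeas n) _ (hae n)
    have hsum : Summable fun n : ℕ =>
        ∫ a, ‖((u a : ℂ) * Complex.I) ^ n / (n.factorial : ℂ)‖ ∂μ := by
      refine Summable.of_nonneg_of_le (f := fun n : ℕ =>
        R ^ n / (n.factorial : ℝ) * μ.real Set.univ) (fun n => integral_nonneg fun a =>
        norm_nonneg _) (fun n => ?_) ?_
      · have := norm_integral_le_of_norm_le_const (μ := μ)
          (f := fun a => ‖((u a : ℂ) * Complex.I) ^ n / (n.factorial : ℂ)‖)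
          (C := R ^ n / (n.factorial : ℝ)) (by
            filter_upwards [hae n] with a ha
            rwa [norm_norm])
        exact (le_abs_self _).trans this
      · exact (Real.summable_pow_div_factorial R).mul_right _
    have h := hasSum_integral_of_summable_integral_norm hint hsum
    have e2 : (fun a => ∑' n : ℕ, ((u a : ℂ) * Complex.I) ^ n / (n.factorial : ℂ)) =
        fun a => Complex.exp ((u a : ℂ) * Complex.I) := by
      funext a
      rw [Complex.exp_eq_exp_ℂ, NormedSpace.exp_eq_tsum_div]
    rw [e2] at h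
    have e3 : (fun n : ℕ => ∫ a, ((u a : ℂ) * Complex.I) ^ n / (n.factorial : ℂ) ∂μ) =
        fun n : ℕ => ((∫ a, u a ^ n ∂μ : ℝ) : ℂ) * (Complex.I ^ n / (n.factorial : ℂ)) := by
      funext n
      rw [hterm n, integral_mul_const, integral_complex_ofReal]
    rw [← e3]
    exact h
  have h1 := key f hf hfR
  have h2 := key g hg hgR
  simp only [hm] at h1
  exact h1.unique h2

end Pool.H55.XRT
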