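import Mathlib

/-! XR2 (MP_5df5df_gt), step (E), part 2: Fubini along lines of slope `s`. -/

set_option autoImplicit false

open MeasureTheory

namespace Pool.H55.XRT

/-- `(r, x) ↦ (x, r + s x)` is measure preserving. -/
theorem mp_skew (s : ℝ) :
    MeasurePreserving (fun p : ℝ × ℝ => (p.2, p.1 + s * p.2)) volume volume := by
  have h1 : MeasurePreserving (fun p : ℝ × ℝ => (id p.1, (fun x r => r + s * x) p.1 p.2))
      (volume.prod volume) (volume.prod volume) :=
    MeasurePreserving.skew_product (g := fun x r => r + s * x) (MeasurePreserving.id _)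
      (by fun_prop) (Filter.Eventually.of_forall fun x =>
        (measurePreserving_add_right volume (s * x)).map_eq)
  have h2 : MeasurePreserving (Prod.swap : ℝ × ℝ → ℝ × ℝ) (volume.prod volume)
      (volume.prod volume) := Measure.measurePreserving_swap
  exact h1.comp h2

theorem me_skew (s : ℝ) : MeasurableEmbedding (fun p : ℝ × ℝ => (p.2, p.1 + s * p.2)) := by
  refine Continuous.measurableEmbedding (by fun_prop) ?_
  intro p q h
  simp only [Prod.mk.injEq] at h
  obtain ⟨h1, h2⟩ := h
  ext
  · rw [h1] at h2
    exact add_right_cancel h2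
  · exact h1

/-- An affine reflection `(x, h) ↦ (a h + b - x, h)` is measure preserving. -/
theorem mp_refl (a b : ℝ) :
    MeasurePreserving (fun p : ℝ × ℝ => (a * p.2 + b - p.1, p.2)) volume volume := by
  have h1 : MeasurePreserving (fun p : ℝ × ℝ => (id p.1, (fun h x => a * h + b - x) p.1 p.2))
      (volume.prod volume) (volume.prod volume) :=
    MeasurePreserving.skew_product (g := fun h x => a * h + b - x) (MeasurePreserving.id _)
      (by fun_prop) (Filter.Eventually.of_forall fun h =>
        (Measure.measurePreserving_sub_left volume (a * h + b)).map_eq)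
  have h2 : MeasurePreserving (Prod.swap : ℝ × ℝ → ℝ × ℝ) (volume.prod volume)
      (volume.prod volume) := Measure.measurePreserving_swap
  exact h2.comp (h1.comp h2)

/-- Image of an open bounded convex planar set under a functional: an open interval. -/
theorem slice_Ioo (D : Set (ℝ × ℝ)) (hDo : IsOpen D) (hDc : Convex ℝ D)
    (hDb : Bornology.IsBounded D) (hDn : D.Nonempty) (s : ℝ) :
    ∃ a b : ℝ, a < b ∧ {r : ℝ | ∃ x, (x, r + s * x) ∈ D} = Set.Ioo a b := by
  set S := {r : ℝ | ∃ x, (x, r + s * x) ∈ D} with hS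
  have hSi : S = (fun p : ℝ × ℝ => p.2 - s * p.1) '' D := by
    ext r
    constructor
    · rintro ⟨x, hx⟩
      exact ⟨_, hx, by simp⟩
    · rintro ⟨p, hp, rfl⟩
      refine ⟨p.1, ?_⟩
      have : (p.1, p.2 - s * p.1 + s * p.1) = p := by
        ext <;> simp
      rw [this]
      exact hp
  have hne : S.Nonempty := by
    rw [hSi]
    exact hDn.image _
  have hop : IsOpen S := by
    have : S = ⋃ x : ℝ, (fun r : ℝ => (x, r + s * x)) ⁻¹' D := by
      ext r
      simp [hS]
    rw [this]
    exact isOpen_iUnion fun x => hDo.preimage (by fun_prop)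
  have hconn : IsConnected S := by
    rw [hSi]
    exact (hDc.isConnected hDn).image _ (by fun_prop)
  have hbdd : Bornology.IsBounded S := by
    rw [hSi]
    obtain ⟨R, hR⟩ := hDb.subset_closedBall 0
    refine (isCompact_closedBall (0 : ℝ × ℝ) R |>.image
      (f := fun p : ℝ × ℝ => p.2 - s * p.1) (by fun_prop)).isBounded.subset ?_
    exact Set.image_mono hR
  have hba : BddAbove S := hbdd.bddAbove
  have hbb : BddBelow S := hbdd.bddBelow
  refine ⟨sInf S, sSup S, ?_, ?_⟩
  · obtain ⟨r, hr⟩ := hne
    obtain ⟨e, he, hball⟩ := Metric.isOpen_iff.1 hop r hr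
    have h1 : r - e / 2 ∈ S := hball (by
      rw [Metric.mem_ball, Real.dist_eq]
      rw [show r - e / 2 - r = -(e / 2) by ring, abs_neg, abs_of_pos (by linarith)]
      linarith)
    have h2 := csInf_le hbb h1
    have h3 := le_csSup hba hr
    linarith
  · apply Set.Subset.antisymm
    · intro r hr
      obtain ⟨e, he, hball⟩ := Metric.isOpen_iff.1 hop r hr
      have h1 : r - e / 2 ∈ S := hball (by
        rw [Metric.mem_ball, Real.dist_eq]
        rw [show r - e / 2 - r = -(e / 2) by ring, abs_neg, abs_of_pos (by linarith)]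
        linarith)
      have h1' : r + e / 2 ∈ S := hball (by
        rw [Metric.mem_ball, Real.dist_eq]
        rw [show r + e / 2 - r = e / 2 by ring, abs_of_pos (by linarith)]
        linarith)
      have h2 := csInf_le hbb h1
      have h3 := le_csSup hba h1'
      constructor <;> linarith
    · exact hconn.Ioo_csInf_csSup_subset hbb hba

/-- Fubini along lines of slope `s`, nonnegative functions. -/
theorem lint_skew (F : ℝ × ℝ → ENNReal) (hF : Measurable F) (s : ℝ) :
    ∫⁻ p, F p = ∫⁻ r, ∫⁻ x, F (x, r + s * x) := by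
  have h1 := (mp_skew s).lintegral_comp hF
  rw [← h1]
  have h2 : Measurable fun p : ℝ × ℝ => F (p.2, p.1 + s * p.2) := hF.comp (by fun_prop)
  rw [Measure.volume_eq_prod, lintegral_prod _ h2.aemeasurable]

/-- Fubini along lines of slope `s`. -/
theorem int_skew (F : ℝ × ℝ → ℝ) (hF : Integrable F) (s : ℝ) :
    ∫ p, F p = ∫ r, ∫ x, F (x, r + s * x) := by
  have h1 := (mp_skew s).integral_comp (me_skew s) F
  rw [← h1]
  have h2 : Integrable (fun p : ℝ × ℝ => F (p.2, p.1 + s * p.2)) :=
    ((mp_skew s).integrable_comp_emb (me_skew s)).2 hF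
  rw [Measure.volume_eq_prod] at h2 ⊢
  rw [integral_prod _ h2]

end Pool.H55.XRT
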