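import Pool.Agent.H55.XRT.MargE1
import Pool.Agent.H55.XRT.MargE2

/-! XR2 (MP_5df5df_gt), step (E), part 3: the weight `1 / X` and its marginals. -/

set_option autoImplicit false

open MeasureTheory

namespace Pool.H55.XRT

/-- The weight `1 / X` on `D`, `0` outside. -/
noncomputable def wt (D : Set (ℝ × ℝ)) (X : ℝ × ℝ → ℝ) : ℝ × ℝ → ℝ :=
  D.indicator fun p => 1 / X p

/-- The hypothesis of step (E): for slopes `s` in `(s1, s2)` the integral of `1 / X` over the
lines of slope `s` which meet `D` is a constant `c s`. -/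
def MargConst (D : Set (ℝ × ℝ)) (X : ℝ × ℝ → ℝ) (s1 s2 : ℝ) (c : ℝ → ℝ) : Prop :=
  ∀ s ∈ Set.Ioo s1 s2, ∀ r : ℝ, (∃ x, (x, r + s * x) ∈ D) →
    IntegrableOn (fun x => 1 / X (x, r + s * x)) {x | (x, r + s * x) ∈ D} ∧
    ∫ x in {x | (x, r + s * x) ∈ D}, 1 / X (x, r + s * x) = c s

variable {D : Set (ℝ × ℝ)} {X : ℝ × ℝ → ℝ} {s1 s2 : ℝ} {c : ℝ → ℝ}

theorem wt_nonneg (hpos : ∀ p ∈ D, 0 < X p) (p : ℝ × ℝ) : 0 ≤ wt D X p := by
  unfold wt
  exact Set.indicator_nonneg (fun q hq => (one_div_pos.2 (hpos q hq)).le) p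

theorem wt_meas (hDo : IsOpen D) (hX : ContinuousOn X D) (hpos : ∀ p ∈ D, 0 < X p) :
    Measurable (wt D X) := by
  classical
  have h1 : ContinuousOn (fun p => 1 / X p) D :=
    continuousOn_const.div hX fun p hp => (hpos p hp).ne'
  have h2 : wt D X = D.piecewise (fun p => 1 / X p) (fun _ => 0) := by
    unfold wt
    rw [← Set.piecewise_eq_indicator]
    rfl
  rw [h2]
  exact h1.measurable_piecewise continuousOn_const hDo.measurableSet

theorem slice_meas (hDo : IsOpen D) (r s : ℝ) : MeasurableSet {x | (x, r + s * x) ∈ D} := by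
  have : IsOpen {x | (x, r + s * x) ∈ D} := hDo.preimage (f := fun x : ℝ => (x, r + s * x))
    (by fun_prop)
  exact this.measurableSet

theorem wt_slice (hDo : IsOpen D) (hM : MargConst D X s1 s2 c) (s : ℝ) (hs : s ∈ Set.Ioo s1 s2)
    (r : ℝ) :
    Integrable (fun x => wt D X (x, r + s * x)) ∧
    ∫ x, wt D X (x, r + s * x) = {r : ℝ | ∃ x, (x, r + s * x) ∈ D}.indicator (fun _ => c s) r := by
  have e1 : (fun x => wt D X (x, r + s * x)) =
      {x | (x, r + s * x) ∈ D}.indicator fun x => 1 / X (x, r + s * x) := by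
    funext x
    unfold wt
    by_cases hx : (x, r + s * x) ∈ D
    · rw [Set.indicator_of_mem hx, Set.indicator_of_mem (by exact hx)]
    · rw [Set.indicator_of_notMem hx, Set.indicator_of_notMem (by exact hx)]
  rw [e1]
  by_cases hr : ∃ x, (x, r + s * x) ∈ D
  · obtain ⟨h1, h2⟩ := hM s hs r hr
    constructor
    · exact h1.integrable_indicator (slice_meas hDo r s)
    · rw [integral_indicator (slice_meas hDo r s), h2, Set.indicator_of_mem (by exact hr)]
  · have e2 : {x | (x, r + s * x) ∈ D} = ∅ := by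
      ext x
      simp only [Set.mem_ofPred_eq, Set.mem_empty_iff_false, iff_false]
      exact fun hx => hr ⟨x, hx⟩
    rw [e2, Set.indicator_empty]
    constructor
    · exact integrable_zero _ _ _
    · rw [Set.indicator_of_notMem (by exact hr)]
      simp

theorem wt_int (hs12 : s1 < s2) (hDo : IsOpen D) (hDc : Convex ℝ D)
    (hDb : Bornology.IsBounded D) (hDn : D.Nonempty) (hX : ContinuousOn X D)
    (hpos : ∀ p ∈ D, 0 < X p) (hM : MargConst D X s1 s2 c) : Integrable (wt D X) := by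
  refine ⟨(wt_meas hDo hX hpos).aestronglyMeasurable, ?_⟩
  set s := (s1 + s2) / 2 with hsdef
  have hs : s ∈ Set.Ioo s1 s2 := by constructor <;> (rw [hsdef]; linarith)
  obtain ⟨a, b, hab, hI⟩ := slice_Ioo D hDo hDc hDb hDn s
  rw [hasFiniteIntegral_iff_enorm]
  rw [lint_skew (fun p => ‖wt D X p‖ₑ) (wt_meas hDo hX hpos).enorm s]
  have h1 : ∀ r, ∫⁻ x, ‖wt D X (x, r + s * x)‖ₑ ≤ (Set.Ioo a b).indicator
      (fun _ => ENNReal.ofReal (c s)) r := by
    intro r
    obtain ⟨h2, h3⟩ := wt_slice hDo hM s hs r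
    have h4 : ∫⁻ x, ‖wt D X (x, r + s * x)‖ₑ =
        ENNReal.ofReal (∫ x, wt D X (x, r + s * x)) := by
      rw [ofReal_integral_eq_lintegral_ofReal h2 (Filter.Eventually.of_forall fun x =>
        wt_nonneg hpos _)]
      refine lintegral_congr fun x => ?_
      rw [Real.enorm_eq_ofReal (wt_nonneg hpos _)]
    rw [h4, h3, hI]
    by_cases hr : r ∈ Set.Ioo a b
    · rw [Set.indicator_of_mem hr, Set.indicator_of_mem hr]
    · rw [Set.indicator_of_notMem hr, Set.indicator_of_notMem hr]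
      simp
  refine (lintegral_mono h1).trans_lt ?_
  rw [lintegral_indicator_const measurableSet_Ioo, Real.volume_Ioo]
  exact ENNReal.mul_lt_top ENNReal.ofReal_lt_top ENNReal.ofReal_lt_top

/-- Continuous functions are integrable against the weight. -/
theorem wt_int_mul (hs12 : s1 < s2) (hDo : IsOpen D) (hDc : Convex ℝ D)
    (hDb : Bornology.IsBounded D) (hDn : D.Nonempty) (hX : ContinuousOn X D)
    (hpos : ∀ p ∈ D, 0 < X p) (hM : MargConst D X s1 s2 c) (g : ℝ × ℝ → ℝ) (hg : Continuous g) :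
    Integrable (fun p => g p * wt D X p) := by
  obtain ⟨R, hR⟩ := hDb.subset_closedBall 0
  obtain ⟨C, hC⟩ := (isCompact_closedBall (0 : ℝ × ℝ) R).exists_bound_of_continuousOn
    hg.continuousOn
  have h1 := wt_int hs12 hDo hDc hDb hDn hX hpos hM
  refine Integrable.mono' (h1.const_mul C)
    (hg.aestronglyMeasurable.mul (wt_meas hDo hX hpos).aestronglyMeasurable)
    (Filter.Eventually.of_forall fun p => ?_)
  by_cases hp : p ∈ D
  · rw [norm_mul, Real.norm_of_nonneg (wt_nonneg hpos p)]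
    exact mul_le_mul_of_nonneg_right (hC p (hR hp)) (wt_nonneg hpos p)
  · have : wt D X p = 0 := by
      unfold wt
      rw [Set.indicator_of_notMem hp]
    rw [this]
    simp

/-- Marginals of the weight. -/
theorem wt_marg (hs12 : s1 < s2) (hDo : IsOpen D) (hDc : Convex ℝ D)
    (hDb : Bornology.IsBounded D) (hDn : D.Nonempty) (hX : ContinuousOn X D)
    (hpos : ∀ p ∈ D, 0 < X p) (hM : MargConst D X s1 s2 c) (s : ℝ) (hs : s ∈ Set.Ioo s1 s2)
    (a b : ℝ) (hab : a < b) (hI : {r : ℝ | ∃ x, (x, r + s * x) ∈ D} = Set.Ioo a b)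
    (g : ℝ → ℝ) (hg : Continuous g) :
    ∫ p : ℝ × ℝ, g (p.2 - s * p.1) * wt D X p = c s * ∫ r in a..b, g r := by
  have h1 := wt_int_mul hs12 hDo hDc hDb hDn hX hpos hM (fun p => g (p.2 - s * p.1))
    (by fun_prop)
  rw [int_skew _ h1 s]
  have h2 : ∀ r, ∫ x, g (r + s * x - s * x) * wt D X (x, r + s * x) =
      (Set.Ioo a b).indicator (fun r => c s * g r) r := by
    intro r
    obtain ⟨_, h3⟩ := wt_slice hDo hM s hs r
    have e1 : (fun x => g (r + s * x - s * x) * wt D X (x, r + s * x)) =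
        fun x => g r * wt D X (x, r + s * x) := by
      funext x
      rw [show r + s * x - s * x = r by ring]
    rw [e1, integral_const_mul, h3, hI]
    by_cases hr : r ∈ Set.Ioo a b
    · rw [Set.indicator_of_mem hr, Set.indicator_of_mem hr]
      ring
    · rw [Set.indicator_of_notMem hr, Set.indicator_of_notMem hr]
      simp
  simp only [h2]
  rw [integral_indicator measurableSet_Ioo, intervalIntegral.integral_of_le hab.le,
    integral_Ioc_eq_integral_Ioo, integral_const_mul]

end Pool.H55.XRT
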