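import Pool.Agent.H55.XRT.MargE3

/-! XR2 (MP_5df5df_gt), step (E), part 4: centred moments of the weight. -/

set_option autoImplicit false

open MeasureTheory

namespace Pool.H55.XRT

variable {D : Set (ℝ × ℝ)} {X : ℝ × ℝ → ℝ} {s1 s2 : ℝ} {c : ℝ → ℝ}

/-- The measure with density `1 / X` on `D`. -/
noncomputable def mu (D : Set (ℝ × ℝ)) (X : ℝ × ℝ → ℝ) : Measure (ℝ × ℝ) :=
  (volume : Measure (ℝ × ℝ)).withDensity fun p => ENNReal.ofReal (wt D X p)

theorem mu_integral (hDo : IsOpen D) (hX : ContinuousOn X D) (hpos : ∀ p ∈ D, 0 < X p)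
    {E : Type} [NormedAddCommGroup E] [NormedSpace ℝ E] (g : ℝ × ℝ → E) :
    ∫ p, g p ∂(mu D X) = ∫ p, wt D X p • g p := by
  unfold mu
  rw [integral_withDensity_eq_integral_toReal_smul
    (wt_meas hDo hX hpos).ennreal_ofReal (Filter.Eventually.of_forall fun p =>
      ENNReal.ofReal_lt_top)]
  refine integral_congr_ae (Filter.Eventually.of_forall fun p => ?_)
  simp only
  rw [ENNReal.toReal_ofReal (wt_nonneg hpos p)]

theorem mu_fin (hs12 : s1 < s2) (hDo : IsOpen D) (hDc : Convex ℝ D)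
    (hDb : Bornology.IsBounded D) (hDn : D.Nonempty) (hX : ContinuousOn X D)
    (hpos : ∀ p ∈ D, 0 < X p) (hM : MargConst D X s1 s2 c) : IsFiniteMeasure (mu D X) := by
  unfold mu
  exact isFiniteMeasure_withDensity_ofReal (wt_int hs12 hDo hDc hDb hDn hX hpos hM).2

theorem mu_ae (hDo : IsOpen D) (hX : ContinuousOn X D) (hpos : ∀ p ∈ D, 0 < X p) :
    ∀ᵐ p ∂(mu D X), p ∈ D := by
  unfold mu
  rw [ae_withDensity_iff (wt_meas hDo hX hpos).ennreal_ofReal]
  refine Filter.Eventually.of_forall fun p hp => ?_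
  by_contra h
  apply hp
  unfold wt
  rw [Set.indicator_of_notMem h]
  simp

theorem mu_integrable (hs12 : s1 < s2) (hDo : IsOpen D) (hDc : Convex ℝ D)
    (hDb : Bornology.IsBounded D) (hDn : D.Nonempty) (hX : ContinuousOn X D)
    (hpos : ∀ p ∈ D, 0 < X p) (hM : MargConst D X s1 s2 c) (g : ℝ × ℝ → ℝ) (hg : Continuous g) :
    Integrable g (mu D X) := by
  have := mu_fin hs12 hDo hDc hDb hDn hX hpos hM
  obtain ⟨R, hR⟩ := hDb.subset_closedBall 0
  obtain ⟨C, hC⟩ := (isCompact_closedBall (0 : ℝ × ℝ) R).exists_bound_of_continuousOn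
    hg.continuousOn
  refine Integrable.of_bound hg.aestronglyMeasurable C ?_
  filter_upwards [mu_ae hDo hX hpos] with p hp
  exact hC p (hR hp)

/-- Centred moments for slopes in `(s1, s2)`. -/
theorem mu_moments (hs12 : s1 < s2) (hDo : IsOpen D) (hDc : Convex ℝ D)
    (hDb : Bornology.IsBounded D) (hDn : D.Nonempty) (hX : ContinuousOn X D)
    (hpos : ∀ p ∈ D, 0 < X p) (hM : MargConst D X s1 s2 c) :
    ∃ M x0 h0 : ℝ, 0 < M ∧ ∀ s ∈ Set.Ioo s1 s2,
      (0 < ∫ p : ℝ × ℝ, ((p.2 - h0) - s * (p.1 - x0)) ^ 2 ∂(mu D X)) ∧ ∀ n : ℕ,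
      ∫ p : ℝ × ℝ, ((p.2 - h0) - s * (p.1 - x0)) ^ n ∂(mu D X) =
        UM M n (∫ p : ℝ × ℝ, ((p.2 - h0) - s * (p.1 - x0)) ^ 2 ∂(mu D X)) := by
  have hmarg : ∀ s ∈ Set.Ioo s1 s2, ∃ a b : ℝ, a < b ∧ ∀ g : ℝ → ℝ, Continuous g →
      ∫ p : ℝ × ℝ, g (p.2 - s * p.1) ∂(mu D X) = c s * ∫ r in a..b, g r := by
    intro s hs
    obtain ⟨a, b, hab, hI⟩ := slice_Ioo D hDo hDc hDb hDn s
    refine ⟨a, b, hab, fun g hg => ?_⟩
    rw [mu_integral hDo hX hpos, ← wt_marg hs12 hDo hDc hDb hDn hX hpos hM s hs a b hab hI g hg]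
    refine integral_congr_ae (Filter.Eventually.of_forall fun p => ?_)
    simp only [smul_eq_mul]
    ring
  set M : ℝ := ∫ _p : ℝ × ℝ, (1 : ℝ) ∂(mu D X) with hMdef
  set x1 : ℝ := ∫ p : ℝ × ℝ, p.1 ∂(mu D X) with hx1
  set h1 : ℝ := ∫ p : ℝ × ℝ, p.2 ∂(mu D X) with hh1
  have hMab : ∀ (s a b : ℝ), (∀ g : ℝ → ℝ, Continuous g →
      ∫ p : ℝ × ℝ, g (p.2 - s * p.1) ∂(mu D X) = c s * ∫ r in a..b, g r) →
      M = c s * (b - a) := by
    intro s a b hg
    have := hg (fun _ => 1) continuous_const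
    rw [hMdef, this]
    simp
  -- positivity of M
  have hMpos : 0 < M := by
    have h2 : M = ∫ p, wt D X p := by
      rw [hMdef, mu_integral hDo hX hpos]
      simp
    rw [h2]
    rw [integral_pos_iff_support_of_nonneg (fun p => wt_nonneg hpos p)
      (wt_int hs12 hDo hDc hDb hDn hX hpos hM)]
    have h3 : D ⊆ Function.support (wt D X) := by
      intro p hp
      rw [Function.mem_support]
      unfold wt
      rw [Set.indicator_of_mem hp]
      exact (one_div_pos.2 (hpos p hp)).ne'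
    exact (hDo.measure_pos volume hDn).trans_le (measure_mono h3)
  refine ⟨M, x1 / M, h1 / M, hMpos, fun s hs => ?_⟩
  obtain ⟨a, b, hab, hg⟩ := hmarg s hs
  have e1 := hMab s a b hg
  have hc : 0 < c s := by
    by_contra hneg
    push Not at hneg
    have : c s * (b - a) ≤ 0 := mul_nonpos_of_nonpos_of_nonneg hneg (by linarith)
    linarith
  -- first moment
  have e2 : h1 - s * x1 = c s * ((b ^ 2 - a ^ 2) / 2) := by
    have := hg (fun r => r) continuous_id
    rw [integral_id] at this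
    rw [← this]
    rw [integral_sub (mu_integrable hs12 hDo hDc hDb hDn hX hpos hM _ (by fun_prop))
      (mu_integrable hs12 hDo hDc hDb hDn hX hpos hM _ (by fun_prop)), integral_const_mul]
  have e3 : h1 / M - s * (x1 / M) = (a + b) / 2 := by
    have : h1 / M - s * (x1 / M) = (h1 - s * x1) / M := by ring
    rw [this, e2, e1]
    have h5 : b - a ≠ 0 := by linarith [hab]
    field_simp
    ring
  have e4 : ∀ n : ℕ, ∫ p : ℝ × ℝ, ((p.2 - h1 / M) - s * (p.1 - x1 / M)) ^ n ∂(mu D X) =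
      c s * ((((b - a) / 2) ^ (n + 1) - (-((b - a) / 2)) ^ (n + 1)) / (n + 1)) := by
    intro n
    have := hg (fun r => (r - (a + b) / 2) ^ n) (by fun_prop)
    have e5 : (fun p : ℝ × ℝ => ((p.2 - h1 / M) - s * (p.1 - x1 / M)) ^ n) =
        fun p : ℝ × ℝ => ((p.2 - s * p.1) - (a + b) / 2) ^ n := by
      funext p
      rw [← e3]
      ring
    rw [e5, this]
    rw [intervalIntegral.integral_comp_sub_right (fun r => r ^ n) ((a + b) / 2), integral_pow]
    congr 3
    · congr 1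
      ring
    · congr 1
      ring
  have e6 : ∫ p : ℝ × ℝ, ((p.2 - h1 / M) - s * (p.1 - x1 / M)) ^ 2 ∂(mu D X) =
      M * ((b - a) / 2) ^ 2 / 3 := by
    rw [e4 2, e1]
    push_cast
    ring
  constructor
  · rw [e6]
    have : 0 < (b - a) / 2 := by linarith
    positivity
  · intro n
    rw [e6, e4 n]
    unfold UM
    have hMne : M ≠ 0 := hMpos.ne'
    split_ifs with hn
    · obtain ⟨j, hj⟩ := hn
      subst hj
      have h2 : (j + j) / 2 = j := by omega
      have h3 : 3 * (M * ((b - a) / 2) ^ 2 / 3) / M = ((b - a) / 2) ^ 2 := by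
        field_simp
      rw [h2, h3]
      have h4 : (-((b - a) / 2)) ^ (j + j + 1) = -((b - a) / 2) ^ (j + j + 1) := by
        rw [Odd.neg_pow ⟨j, by ring⟩]
      rw [h4, ← pow_mul, e1]
      have h5 : 2 * j = j + j := by ring
      rw [h5, pow_succ]
      ring
    · have hodd : Odd n := Nat.not_even_iff_odd.1 hn
      have h4 : (-((b - a) / 2)) ^ (n + 1) = ((b - a) / 2) ^ (n + 1) := by
        rw [Even.neg_pow hodd.add_one]
      rw [h4]
      simp

end Pool.H55.XRT
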