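import Pool.Agent.H55.XRT.MargE4

/-! XR2 (MP_5df5df_gt), step (E), part 5: a body whose X-ray has constant weighted lengths
`∫ 1 / X` along all parallel lines, for an open set of slopes, is invariant under the affine
reflections in all directions. -/

set_option autoImplicit false

open MeasureTheory

namespace Pool.H55.XRT

variable {D : Set (ℝ × ℝ)} {X : ℝ × ℝ → ℝ} {s1 s2 : ℝ} {c : ℝ → ℝ}

/-- The affine reflection `(x, h) ↦ (a h + b - x, h)`. -/
def rf (a b : ℝ) (p : ℝ × ℝ) : ℝ × ℝ := (a * p.2 + b - p.1, p.2)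

theorem rf_rf (a b : ℝ) (p : ℝ × ℝ) : rf a b (rf a b p) = p := by
  unfold rf
  ext <;> simp

theorem rf_cont (a b : ℝ) : Continuous (rf a b) := by
  unfold rf
  fun_prop

/-- The measure is invariant under the affine reflection which preserves its second moments. -/
theorem mu_inv (hs12 : s1 < s2) (hDo : IsOpen D) (hDc : Convex ℝ D)
    (hDb : Bornology.IsBounded D) (hDn : D.Nonempty) (hX : ContinuousOn X D)
    (hpos : ∀ p ∈ D, 0 < X p) (hM : MargConst D X s1 s2 c) :
    ∃ a b : ℝ, (mu D X).map (rf a b) = mu D X := by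
  obtain ⟨M, x0, h0, hM0, hmom⟩ := mu_moments hs12 hDo hDc hDb hDn hX hpos hM
  have hfin := mu_fin hs12 hDo hDc hDb hDn hX hpos hM
  have hI : ∀ g : ℝ × ℝ → ℝ, Continuous g → Integrable g (mu D X) := fun g hg =>
    mu_integrable hs12 hDo hDc hDb hDn hX hpos hM g hg
  have hall := moments_ext (mu D X) (fun p => p.1 - x0) (fun p => p.2 - h0) M s1 s2 hs12
    (fun i j => hI _ (by fun_prop)) (fun s hs n => (hmom s hs).2 n)
  set Vx : ℝ := ∫ p : ℝ × ℝ, (p.1 - x0) ^ 2 ∂(mu D X) with hVx
  set Vh : ℝ := ∫ p : ℝ × ℝ, (p.2 - h0) ^ 2 ∂(mu D X) with hVh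
  set C : ℝ := ∫ p : ℝ × ℝ, (p.1 - x0) * (p.2 - h0) ∂(mu D X) with hC
  have hCl : ∃ l : ℝ, C = l * Vh := by
    by_cases hz : Vh = 0
    · refine ⟨0, ?_⟩
      rw [hVh, integral_eq_zero_iff_of_nonneg (fun p => sq_nonneg _)
        (hI (fun p : ℝ × ℝ => (p.2 - h0) ^ 2) (by fun_prop))] at hz
      rw [zero_mul, hC]
      apply integral_eq_zero_of_ae
      filter_upwards [hz] with p hp
      have : p.2 - h0 = 0 := by
        have h3 : (p.2 - h0) ^ 2 = 0 := hp
        exact pow_eq_zero_iff (two_ne_zero) |>.1 h3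
      simp [this]
    · exact ⟨C / Vh, by field_simp⟩
  obtain ⟨l, hl⟩ := hCl
  have hquad : ∀ p q : ℝ, ∫ v : ℝ × ℝ, (p * (v.1 - x0) + q * (v.2 - h0)) ^ 2 ∂(mu D X) =
      p ^ 2 * Vx + 2 * p * q * C + q ^ 2 * Vh := by
    intro p q
    have e1 : (fun v : ℝ × ℝ => (p * (v.1 - x0) + q * (v.2 - h0)) ^ 2) =
        fun v : ℝ × ℝ => p ^ 2 * (v.1 - x0) ^ 2 + 2 * p * q * ((v.1 - x0) * (v.2 - h0)) +
          q ^ 2 * (v.2 - h0) ^ 2 := by
      funext v
      ring
    rw [e1, integral_add (hI _ (by fun_prop)) (hI _ (by fun_prop)),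
      integral_add (hI _ (by fun_prop)) (hI _ (by fun_prop)), integral_const_mul,
      integral_const_mul, integral_const_mul]
  refine ⟨2 * l, 2 * x0 - 2 * l * h0, ?_⟩
  have hmeas : Measurable (rf (2 * l) (2 * x0 - 2 * l * h0)) := (rf_cont _ _).measurable
  have hfin2 : IsFiniteMeasure ((mu D X).map (rf (2 * l) (2 * x0 - 2 * l * h0))) :=
    inferInstance
  apply Measure.ext_of_charFunDual
  funext L
  rw [charFunDual_apply, charFunDual_apply]
  set p : ℝ := L (1, 0) with hp
  set q : ℝ := L (0, 1) with hq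
  have hL : ∀ v : ℝ × ℝ, L v = p * v.1 + q * v.2 := by
    intro v
    have : v = v.1 • ((1 : ℝ), (0 : ℝ)) + v.2 • ((0 : ℝ), (1 : ℝ)) := by
      ext <;> simp
    conv_lhs => rw [this]
    rw [map_add, map_smul, map_smul, smul_eq_mul, smul_eq_mul, ← hp, ← hq]
    ring
  rw [integral_map hmeas.aemeasurable (by
    apply Continuous.aestronglyMeasurable
    have := L.continuous
    fun_prop)]
  have e1 : ∀ v : ℝ × ℝ, Complex.exp ((L (rf (2 * l) (2 * x0 - 2 * l * h0) v) : ℂ) * Complex.I) =
      Complex.exp (((p * x0 + q * h0 : ℝ) : ℂ) * Complex.I) *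
        Complex.exp ((((-p) * (v.1 - x0) + (q + 2 * l * p) * (v.2 - h0) : ℝ) : ℂ) *
          Complex.I) := by
    intro v
    rw [← Complex.exp_add, ← add_mul, ← Complex.ofReal_add, hL]
    congr 3
    unfold rf
    simp only
    ring
  have e2 : ∀ v : ℝ × ℝ, Complex.exp ((L v : ℂ) * Complex.I) =
      Complex.exp (((p * x0 + q * h0 : ℝ) : ℂ) * Complex.I) *
        Complex.exp (((p * (v.1 - x0) + q * (v.2 - h0) : ℝ) : ℂ) * Complex.I) := by
    intro v
    rw [← Complex.exp_add, ← add_mul, ← Complex.ofReal_add, hL]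
    congr 3
    ring
  simp only [e1, e2]
  rw [integral_const_mul, integral_const_mul]
  congr 1
  -- a common bound
  obtain ⟨R, hR⟩ := hDb.subset_closedBall 0
  obtain ⟨C1, hC1⟩ := (isCompact_closedBall (0 : ℝ × ℝ) R).exists_bound_of_continuousOn
    (f := fun v : ℝ × ℝ => (-p) * (v.1 - x0) + (q + 2 * l * p) * (v.2 - h0))
    (by fun_prop)
  obtain ⟨C2, hC2⟩ := (isCompact_closedBall (0 : ℝ × ℝ) R).exists_bound_of_continuousOn
    (f := fun v : ℝ × ℝ => p * (v.1 - x0) + q * (v.2 - h0))
    (by fun_prop)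
  refine exp_of_moments (mu D X) _ _ (max C1 C2) ?_ ?_ ?_ ?_ ?_
  · exact Continuous.aestronglyMeasurable (by fun_prop)
  · exact Continuous.aestronglyMeasurable (by fun_prop)
  · filter_upwards [mu_ae hDo hX hpos] with v hv
    exact (hC1 v (hR hv)).trans (le_max_left _ _)
  · filter_upwards [mu_ae hDo hX hpos] with v hv
    exact (hC2 v (hR hv)).trans (le_max_right _ _)
  · intro n
    rw [hall (-p) (q + 2 * l * p) n, hall p q n, hquad, hquad, hl]
    congr 1
    ring

theorem map_mu (a b : ℝ) (hDo : IsOpen D) (hX : ContinuousOn X D) (hpos : ∀ p ∈ D, 0 < X p) :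
    (mu D X).map (rf a b) = (volume : Measure (ℝ × ℝ)).withDensity
      fun p => ENNReal.ofReal (wt D X (rf a b p)) := by
  have hmp : MeasurePreserving (rf a b) volume volume := mp_refl a b
  have hmeas : Measurable (rf a b) := (rf_cont a b).measurable
  have hw := wt_meas hDo hX hpos
  ext S hS
  rw [Measure.map_apply hmeas hS, withDensity_apply _ hS, mu, withDensity_apply _ (hmeas hS)]
  have h1 := hmp.setLIntegral_comp_preimage hS
    (f := fun p => ENNReal.ofReal (wt D X (rf a b p))) (hw.comp hmeas).ennreal_ofReal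
  rw [← h1]
  refine lintegral_congr fun p => ?_
  rw [rf_rf]

/-- Step (E) for slope `0`. -/
theorem marg_sym0 (hs12 : s1 < s2) (hDo : IsOpen D) (hDc : Convex ℝ D)
    (hDb : Bornology.IsBounded D) (hDn : D.Nonempty) (hX : ContinuousOn X D)
    (hpos : ∀ p ∈ D, 0 < X p) (hM : MargConst D X s1 s2 c) :
    ∃ a b : ℝ, ∀ p ∈ D, rf a b p ∈ D ∧ X (rf a b p) = X p := by
  obtain ⟨a, b, hab⟩ := mu_inv hs12 hDo hDc hDb hDn hX hpos hM
  refine ⟨a, b, ?_⟩
  rw [map_mu a b hDo hX hpos, mu] at hab
  have hmeas : Measurable (rf a b) := (rf_cont a b).measurable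
  have hw := wt_meas hDo hX hpos
  have hfin : ∫⁻ p, ENNReal.ofReal (wt D X (rf a b p)) ≠ ⊤ := by
    have h1 := (mp_refl a b).lintegral_comp (f := fun p => ENNReal.ofReal (wt D X p))
      hw.ennreal_ofReal
    have h2 : ∫⁻ p, ENNReal.ofReal (wt D X (rf a b p)) = ∫⁻ p, ENNReal.ofReal (wt D X p) := h1
    rw [h2]
    have h3 := (wt_int hs12 hDo hDc hDb hDn hX hpos hM)
    exact (h3.lintegral_lt_top).ne
  have hcm : Measurable fun p => ENNReal.ofReal (wt D X (rf a b p)) :=
    (hw.comp hmeas).ennreal_ofReal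
  rw [withDensity_eq_iff hcm.aemeasurable hw.ennreal_ofReal.aemeasurable hfin] at hab
  have hae : ∀ᵐ p, wt D X (rf a b p) = wt D X p := by
    filter_upwards [hab] with p hp
    have h1 : ENNReal.ofReal (wt D X (rf a b p)) = ENNReal.ofReal (wt D X p) := hp
    rwa [ENNReal.ofReal_eq_ofReal_iff (wt_nonneg hpos _) (wt_nonneg hpos _)] at h1
  have hmem : ∀ p ∈ D, rf a b p ∈ D := by
    set D' : Set (ℝ × ℝ) := rf a b ⁻¹' D with hD'
    have hD'o : IsOpen D' := hDo.preimage (rf_cont a b)
    have hD'c : Convex ℝ D' := by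
      intro p hp q hq u v hu hv huv
      have e : rf a b (u • p + v • q) = u • rf a b p + v • rf a b q := by
        unfold rf
        ext
        · simp only [Prod.fst_add, Prod.smul_fst, Prod.snd_add, Prod.smul_snd, smul_eq_mul]
          have : b = u * b + v * b := by rw [← add_mul, huv, one_mul]
          linear_combination this
        · simp
      show rf a b (u • p + v • q) ∈ D
      rw [e]
      exact hDc hp hq hu hv huv
    have hD'n : D'.Nonempty := by
      obtain ⟨p, hp⟩ := hDn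
      exact ⟨rf a b p, by show rf a b (rf a b p) ∈ D; rw [rf_rf]; exact hp⟩
    have hsub : D ⊆ closure D' := by
      intro p hp
      by_contra hnot
      have hU : IsOpen (D ∩ (closure D')ᶜ) := hDo.inter isClosed_closure.isOpen_compl
      have hUn : (D ∩ (closure D')ᶜ).Nonempty := ⟨p, hp, hnot⟩
      have hpos2 := hU.measure_pos volume hUn
      have hnull : volume (D ∩ (closure D')ᶜ) = 0 := by
        refine measure_mono_null ?_ (ae_iff.1 hae)
        intro v hv
        have h1 : rf a b v ∉ D := fun h => hv.2 (subset_closure h)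
        show ¬ (wt D X (rf a b v) = wt D X v)
        unfold wt
        rw [Set.indicator_of_notMem h1, Set.indicator_of_mem hv.1]
        exact (one_div_pos.2 (hpos v hv.1)).ne
      rw [hnull] at hpos2
      exact lt_irrefl _ hpos2
    have hint : interior (closure D') = D' := by
      rw [hD'c.interior_closure_eq_interior_of_nonempty_interior (by
        rw [hD'o.interior_eq]; exact hD'n), hD'o.interior_eq]
    intro p hp
    have : p ∈ interior (closure D') := interior_maximal hsub hDo hp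
    rw [hint] at this
    exact this
  intro p hp
  refine ⟨hmem p hp, ?_⟩
  have hcont : ContinuousOn (fun v => 1 / X v) D :=
    continuousOn_const.div hX fun v hv => (hpos v hv).ne'
  have heq : Set.EqOn (fun v => 1 / X (rf a b v)) (fun v => 1 / X v) D := by
    apply Measure.eqOn_open_of_ae_eq (μ := (volume : Measure (ℝ × ℝ))) _ hDo
      (hcont.comp (rf_cont a b).continuousOn hmem) hcont
    rw [Filter.EventuallyEq, ae_restrict_iff' hDo.measurableSet]
    filter_upwards [hae] with v hv hvD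
    unfold wt at hv
    rw [Set.indicator_of_mem (hmem v hvD), Set.indicator_of_mem hvD] at hv
    exact hv
  have h1 := heq hp
  simp only [one_div, inv_inj] at h1
  exact h1

/-- Step (E): let `D` be an open bounded convex planar set, `X` continuous and positive on `D`,
and suppose that for every slope `s` in an open interval the integral of `1 / X` over the lines
of slope `s` which meet `D` is a constant. Then for every slope `s0` the set `D` and `X` are
invariant under an affine reflection in direction `(1, s0)`. -/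
theorem marg_sym (hs12 : s1 < s2) (hDo : IsOpen D) (hDc : Convex ℝ D)
    (hDb : Bornology.IsBounded D) (hDn : D.Nonempty) (hX : ContinuousOn X D)
    (hpos : ∀ p ∈ D, 0 < X p) (hM : MargConst D X s1 s2 c) (s0 : ℝ) :
    ∃ a b : ℝ, ∀ x h : ℝ, (x, h) ∈ D →
      (a * (h - s0 * x) + b - x, h + s0 * (a * (h - s0 * x) + b - 2 * x)) ∈ D ∧
      X (a * (h - s0 * x) + b - x, h + s0 * (a * (h - s0 * x) + b - 2 * x)) = X (x, h) := by
  set D' : Set (ℝ × ℝ) := {p | (p.1, p.2 + s0 * p.1) ∈ D} with hD'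
  set X' : ℝ × ℝ → ℝ := fun p => X (p.1, p.2 + s0 * p.1) with hX'
  have hc0 : Continuous fun p : ℝ × ℝ => (p.1, p.2 + s0 * p.1) := by fun_prop
  have hD'o : IsOpen D' := hDo.preimage hc0
  have hD'c : Convex ℝ D' := by
    intro p hp q hq u v hu hv huv
    have hp' : (p.1, p.2 + s0 * p.1) ∈ D := hp
    have hq' : (q.1, q.2 + s0 * q.1) ∈ D := hq
    have := hDc hp' hq' hu hv huv
    show ((u • p + v • q).1, (u • p + v • q).2 + s0 * (u • p + v • q).1) ∈ D
    have e : ((u • p + v • q).1, (u • p + v • q).2 + s0 * (u • p + v • q).1) =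
        u • (p.1, p.2 + s0 * p.1) + v • (q.1, q.2 + s0 * q.1) := by
      ext
      · simp
      · simp only [Prod.fst_add, Prod.smul_fst, Prod.snd_add, Prod.smul_snd, smul_eq_mul]
        ring
    rw [e]
    exact this
  have hD'n : D'.Nonempty := by
    obtain ⟨p, hp⟩ := hDn
    refine ⟨(p.1, p.2 - s0 * p.1), ?_⟩
    show (p.1, p.2 - s0 * p.1 + s0 * p.1) ∈ D
    have : (p.1, p.2 - s0 * p.1 + s0 * p.1) = p := by ext <;> simp
    rw [this]
    exact hp
  have hD'b : Bornology.IsBounded D' := by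
    obtain ⟨R, hR⟩ := hDb.subset_closedBall 0
    refine (isCompact_closedBall (0 : ℝ × ℝ) R |>.image
      (f := fun p : ℝ × ℝ => (p.1, p.2 - s0 * p.1)) (by fun_prop)).isBounded.subset ?_
    intro p hp
    refine ⟨(p.1, p.2 + s0 * p.1), hR hp, ?_⟩
    ext <;> simp
  have hX'c : ContinuousOn X' D' := hX.comp hc0.continuousOn fun p hp => hp
  have hX'p : ∀ p ∈ D', 0 < X' p := fun p hp => hpos _ hp
  have hM' : MargConst D' X' (s1 - s0) (s2 - s0) (fun s => c (s + s0)) := by
    intro s hs r hr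
    have hs' : s + s0 ∈ Set.Ioo s1 s2 := ⟨by linarith [hs.1], by linarith [hs.2]⟩
    have e1 : ∀ x : ℝ, (x, r + s * x + s0 * x) = (x, r + (s + s0) * x) := by
      intro x
      ext
      · rfl
      · simp only
        ring
    have e2 : {x : ℝ | (x, r + s * x) ∈ D'} = {x | (x, r + (s + s0) * x) ∈ D} := by
      ext x
      show (x, r + s * x + s0 * x) ∈ D ↔ (x, r + (s + s0) * x) ∈ D
      rw [e1]
    have e3 : (fun x : ℝ => 1 / X' (x, r + s * x)) = fun x => 1 / X (x, r + (s + s0) * x) := by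
      funext x
      show 1 / X (x, r + s * x + s0 * x) = _
      rw [e1]
    obtain ⟨x, hx⟩ := hr
    have hx' : (x, r + (s + s0) * x) ∈ D := by
      rw [← e1]
      exact hx
    obtain ⟨h1, h2⟩ := hM (s + s0) hs' r ⟨x, hx'⟩
    rw [e2, e3]
    exact ⟨h1, h2⟩
  obtain ⟨a, b, hab⟩ := marg_sym0 (by linarith) hD'o hD'c hD'b hD'n hX'c hX'p hM'
  refine ⟨a, b, fun x h hxh => ?_⟩
  have hmem : (x, h - s0 * x) ∈ D' := by
    show (x, h - s0 * x + s0 * x) ∈ D
    rw [sub_add_cancel]
    exact hxh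
  obtain ⟨h1, h2⟩ := hab _ hmem
  have e : ((rf a b (x, h - s0 * x)).1, (rf a b (x, h - s0 * x)).2 +
      s0 * (rf a b (x, h - s0 * x)).1) =
      (a * (h - s0 * x) + b - x, h + s0 * (a * (h - s0 * x) + b - 2 * x)) := by
    unfold rf
    ext
    · rfl
    · simp only
      ring
  constructor
  · rw [← e]
    exact h1
  · rw [← e]
    have h3 : X' (x, h - s0 * x) = X (x, h) := by
      show X (x, h - s0 * x + s0 * x) = X (x, h)
      rw [sub_add_cancel]
    rw [← h3]
    exact h2

end Pool.H55.XRT
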